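import Mathlib
import Pool.Agent.X207.KS7

set_option autoImplicit false

/-!
# MP_5e2fde_an, Q1: real zeros of `∑ k^s x^k / (k!)^m`

For every real `s > 0` and every `m ≥ 3` the function `F_{s,m}` belongs to the class
Laguerre–Pólya plus; hence the answer to Q1 is positive (with `m = 3` for every `s`).

Idea. For `0 < s < 1` write `k^s = C ∫_0^∞ (1 - e^{-kt}) t^{-1-s} dt`.  The Jensen polynomials
`J_N` of `1/(k!)^2` are real-rooted and satisfy a third order equation, and an energy argument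
shows that each critical value of `J_N` on the negative axis dominates all earlier values of
`|J_N|`.  So the polynomial with coefficients `k^s [x^k] J_N` has at each critical point the sign
of `J_N`, and a Lagrange interpolation (Hermite–Biehler type) argument gives real-rootedness.
-/

open Polynomial

namespace Pool.Agent.Results.MP_5e2fde_an.FracPow

/-- The Laguerre–Pólya class: limits, uniformly on compact subsets of `ℂ`, of (nonzero) real
polynomials having only real zeros. -/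
def IsLP (f : ℂ → ℂ) : Prop :=
  ∃ P : ℕ → ℝ[X], (∀ n, P n ≠ 0 ∧ ∀ z : ℂ, aeval z (P n) = 0 → z.im = 0) ∧
    ∀ K : Set ℂ, IsCompact K →
      TendstoUniformlyOn (fun (n : ℕ) (z : ℂ) => aeval z (P n)) f Filter.atTop K

/-- The class `LP⁺`: members of the Laguerre–Pólya class that are the sum, on all of `ℂ`, of a
power series with real nonnegative coefficients. -/
def IsLPplus (f : ℂ → ℂ) : Prop :=
  IsLP f ∧ ∃ a : ℕ → ℝ, (∀ k, 0 ≤ a k) ∧ ∀ z : ℂ, HasSum (fun k : ℕ => (a k : ℂ) * z ^ k) (f z)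

/-- `F_{s,m}(z) = ∑_k k^s z^k / (k!)^m` (for `s ≠ 0` Mathlib's convention is `0^s = 0`). -/
noncomputable def F (s : ℝ) (m : ℕ) (z : ℂ) : ℂ :=
  ∑' k : ℕ, (((k : ℝ) ^ s / (Nat.factorial k : ℝ) ^ m : ℝ) : ℂ) * z ^ k

/-- Q1 has a positive answer, and in fact every `m ≥ 3` works for every `s > 0`. -/
theorem result :
    (∀ s : ℝ, 0 < s → ∃ m : ℕ, 1 ≤ m ∧ IsLPplus (F s m)) ∧
    (∀ s : ℝ, 0 < s → ∀ m : ℕ, 3 ≤ m → IsLPplus (F s m)) := by
  have key : ∀ s : ℝ, 0 < s → ∀ m : ℕ, 3 ≤ m → IsLPplus (F s m) := by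
    intro s hs m hm
    refine ⟨⟨fun N => Pool.Agent.X207.KS.RP s m N, fun N =>
      ⟨Pool.Agent.X207.KS.RP_ne_zero hs hm N, fun z hz => Pool.Agent.X207.KS.RP_real hs hm N z hz⟩,
      fun K hK => Pool.Agent.X207.KS.FF_limit hs hm K hK⟩,
      Pool.Agent.X207.KS.rr0 s m, fun k => Pool.Agent.X207.KS.rr0_nonneg s m k,
      fun z => Pool.Agent.X207.KS.FF_hasSum hs (by omega) z⟩
  exact ⟨fun s hs => ⟨3, by norm_num, key s hs 3 (le_refl 3)⟩, key⟩

end Pool.Agent.Results.MP_5e2fde_an.FracPow
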